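import Pool.Agent.X164.CylSym

set_option autoImplicit false

namespace Pool.Agent.Results.MP_2b78ec_gt.AlwaysProjectionInvariant

open Pool.Agent.X164.CylSym

/-- For every dimension `n`, every subspace `H` and each of the two classes `B`, no strictly
increasing set function `F` and symmetrization `S` exist such that `S` is monotonic,
`F`-preserving, invariant on `H`-symmetric spherical cylinders and not projection invariant. -/
theorem result (n : ℕ) (H : Submodule ℝ (E n)) (B : Set (Set (E n)))
    (hB : B = convexSets n ∨ B = convexBodies n) :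
    ¬ ∃ (F : Set (E n) → NNReal) (S : Set (E n) → Set (E n)),
      (∀ K ∈ B, ∀ L ∈ B, K ⊂ L → F K < F L) ∧
      IsSymmetrization H B S ∧ IsMonotonic B S ∧ (∀ K ∈ B, F (S K) = F K) ∧
      FixesCylinders H S ∧ ¬ IsProjectionInvariant H B S := by
  rintro ⟨F, S, -, hsym, hmon, -, hfix, hnot⟩
  exact hnot (projectionInvariant H B hB S hsym hmon hfix)

end Pool.Agent.Results.MP_2b78ec_gt.AlwaysProjectionInvariant
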